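import Mathlib

/-!
# Function fields of prime hypersurfaces
-/

set_option autoImplicit false

universe u

open MvPolynomial

namespace Pool.Agent.X326.RK

section

variable {k : Type u} [Field k] {σ : Type} (f : MvPolynomial σ k)

/-- the coordinate ring -/
abbrev QR : Type u := MvPolynomial σ k ⧸ Ideal.span {f}

variable [hp : (Ideal.span {f}).IsPrime]

/-- the function field -/
abbrev QK : Type u := FractionRing (QR f)

/-- the map to the function field -/
noncomputable def theta : MvPolynomial σ k →ₐ[k] QK f :=
  (IsScalarTower.toAlgHom k (QR f) (QK f)).comp (Ideal.Quotient.mkₐ k _)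

lemma theta_apply (g : MvPolynomial σ k) :
    theta f g = algebraMap (QR f) (QK f) (Ideal.Quotient.mk _ g) := rfl

lemma theta_eq_zero_iff (g : MvPolynomial σ k) : theta f g = 0 ↔ f ∣ g := by
  rw [theta_apply, map_eq_zero_iff _ (IsFractionRing.injective (QR f) (QK f)),
    Ideal.Quotient.eq_zero_iff_mem, Ideal.mem_span_singleton]

lemma theta_self : theta f f = 0 := (theta_eq_zero_iff f f).2 dvd_rfl

variable {f}

lemma indep_off {i : σ} (hi : i ∈ f.vars) :
    AlgebraicIndependent k (fun j : {j // j ≠ i} => theta f (X j.1)) := by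
  classical
  rw [algebraicIndependent_iff]
  intro Q hQ
  have h1 : theta f (rename Subtype.val Q) = 0 := by
    rw [← hQ]
    have h2 : (theta f).comp (rename (Subtype.val : {j // j ≠ i} → σ)) =
        aeval (fun j : {j // j ≠ i} => theta f (X j.1)) := by
      apply algHom_ext
      intro j
      simp
    rw [← h2]
    rfl
  obtain ⟨g, hg⟩ := (theta_eq_zero_iff f _).1 h1
  by_contra hQ0
  have h3 : rename (Subtype.val : {j // j ≠ i} → σ) Q ≠ 0 := by
    intro h
    exact hQ0 (rename_injective _ Subtype.val_injective (by rw [h, map_zero]))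
  have hf0 : f ≠ 0 := fun h => h3 (by rw [hg, h, zero_mul])
  have hg0 : g ≠ 0 := fun h => h3 (by rw [hg, h, mul_zero])
  have h4 := degreeOf_mul_eq (n := i) hf0 hg0
  rw [← hg] at h4
  have h5 : degreeOf i (rename (Subtype.val : {j // j ≠ i} → σ) Q) = 0 := by
    by_contra h6
    have h7 := mem_vars_iff_degreeOf_ne_zero.2 h6
    obtain ⟨j, -, hj⟩ := mem_vars_rename _ _ h7
    exact j.2 hj
  have h6 := mem_vars_iff_degreeOf_ne_zero.1 hi
  omega

variable (f) in
/-- the map which makes the variable `i` free -/
noncomputable def chi [DecidableEq σ] (i : σ) : MvPolynomial σ k →ₐ[k] Polynomial (QK f) :=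
  (Polynomial.mapAlgHom (aeval (fun j : {j // j ≠ i} => theta f (X j.1)))).comp
    ((optionEquivLeft k {j // j ≠ i} : _ →ₐ[k] _).comp
      (rename (Equiv.optionSubtypeNe i).symm))

lemma chi_X_self [DecidableEq σ] (i : σ) : chi f i (X i) = Polynomial.X := by
  rw [chi, AlgHom.comp_apply, AlgHom.comp_apply, rename_X, Equiv.optionSubtypeNe_symm_self]
  change Polynomial.mapAlgHom _ (optionEquivLeft k {j // j ≠ i} (X none)) = _
  rw [optionEquivLeft_X_none]
  exact Polynomial.map_X _

lemma chi_X_of_ne [DecidableEq σ] {i j : σ} (hj : j ≠ i) :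
    chi f i (X j) = Polynomial.C (theta f (X j)) := by
  rw [chi, AlgHom.comp_apply, AlgHom.comp_apply, rename_X, Equiv.optionSubtypeNe_symm_of_ne hj]
  change Polynomial.mapAlgHom _ (optionEquivLeft k {j // j ≠ i} (X (some ⟨j, hj⟩))) = _
  rw [optionEquivLeft_X_some]
  refine (Polynomial.map_C _).trans ?_
  change Polynomial.C (aeval (fun j : {j // j ≠ i} => theta f (X j.1))
    (X (⟨j, hj⟩ : {j // j ≠ i}))) = _
  rw [aeval_X]

lemma chi_injective [DecidableEq σ] {i : σ} (hi : i ∈ f.vars) : Function.Injective (chi f i) := by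
  have h1 : Function.Injective (rename (R := k) (Equiv.optionSubtypeNe i).symm) :=
    rename_injective _ (Equiv.injective _)
  have h2 : Function.Injective (optionEquivLeft k {j // j ≠ i}) := AlgEquiv.injective _
  have h3 : Function.Injective (Polynomial.mapAlgHom
      (aeval (fun j : {j // j ≠ i} => theta f (X j.1)) :
        MvPolynomial {j // j ≠ i} k →ₐ[k] QK f)) := by
    have h4 : Function.Injective ((aeval (fun j : {j // j ≠ i} => theta f (X j.1)) :
        MvPolynomial {j // j ≠ i} k →ₐ[k] QK f) : MvPolynomial {j // j ≠ i} k →+* QK f) :=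
      indep_off hi
    exact Polynomial.map_injective _ h4
  exact h3.comp (h2.comp h1)

end

end Pool.Agent.X326.RK
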