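import Pool.Agent.X326.RK.Main
import Pool.Agent.X326.RK.Quot
import Pool.Agent.TH188.WP.RatF

/-!
# Determinantal hypersurfaces with coefficients of rank one
-/

set_option autoImplicit false

universe u

open MvPolynomial Pool.Agent.W558 AlgebraicGeometry CategoryTheory

namespace Pool.Agent.X326.RK

section models

variable {k E : Type u} [Field k] [Field E] [Algebra k E]

/-- The field `k` itself has log models. -/
lemma hasLogModels_of_surjective (h : Function.Surjective (algebraMap k E)) :
    HasLogModels k E := by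
  intro m g hg
  have hmem : ∀ z : E, z ∈ chart k (fun _ : Fin 1 => (1 : E)) 0 := by
    intro z
    obtain ⟨c, rfl⟩ := h z
    exact Subalgebra.algebraMap_mem _ c
  have hi : ∀ i : Fin 1, i = 0 := fun i => Subsingleton.elim _ _
  refine ⟨0, 0, fun _ => 1, fun _ l => l.elim0, fun _ l => l.elim0, ?_, ?_, ?_, ?_, ?_, ?_, ?_, ?_⟩
  · intro i
    exact one_ne_zero
  · intro i
    rw [hi i]
    have hb : Function.Bijective (algebraMap k (chart k (fun _ : Fin 1 => (1 : E)) 0)) := by
      constructor
      · exact (algebraMap k _).injective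
      · rintro ⟨z, hz⟩
        obtain ⟨c, rfl⟩ := h z
        exact ⟨c, rfl⟩
    exact Algebra.Smooth.of_equiv (AlgEquiv.ofBijective (Algebra.ofId k _) hb)
  · intro i f
    rw [hi i]
    exact ⟨f, hmem f, 1, hmem 1, one_ne_zero, by simp⟩
  · intro i l
    exact l.elim0
  · intro i l
    exact l.elim0
  · intro i j l
    exact l.elim0
  · intro i κ _ _ φ l
    exact l.elim0
  · intro b i
    rw [hi i]
    exact ⟨g b, hmem _, hmem _, hg b, by simp⟩

end models

/-- the variables: parameters, free variables, private variables -/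
abbrev Vr (τ n N : ℕ) : Type := Fin τ ⊕ (Fin n ⊕ Fin N)

section

variable {k : Type u} [Field k] {τ ny N m : ℕ}
  (C : Matrix (Fin m) (Fin m) (MvPolynomial (Fin τ) k)) (u v : Fin N → Fin m → MvPolynomial (Fin τ) k)
  (β : Fin N → Fin ny → ℕ) (a : Fin N → ℕ)

/-- the coefficients as polynomials in all variables -/
noncomputable def cf (ny N : ℕ) : MvPolynomial (Fin τ) k →ₐ[k] MvPolynomial (Vr τ ny N) k :=
  rename Sum.inl

/-- the monomials -/
noncomputable def tP (k : Type u) [Field k] (τ : ℕ) {ny N : ℕ} (β : Fin N → Fin ny → ℕ)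
    (a : Fin N → ℕ) (e : Fin N) : MvPolynomial (Vr τ ny N) k :=
  (∏ j, X (Sum.inr (Sum.inl j)) ^ β e j) * X (Sum.inr (Sum.inr e)) ^ a e

/-- the matrix -/
noncomputable def MM : Matrix (Fin m) (Fin m) (MvPolynomial (Vr τ ny N) k) :=
  Matrix.of fun i j => cf ny N (C i j) + ∑ e, tP k τ β a e * (cf ny N (v e i) * cf ny N (u e j))

/-- the equation -/
noncomputable def ff : MvPolynomial (Vr τ ny N) k := (MM C u v β a).det

variable (p : ℕ) [Fact p.Prime] [PerfectField k] [CharP k p]

/-- The hypersurface has a resolution of singularities. -/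
theorem main (hτ : τ = 0 ∨ τ = 2) (hN : 2 ≤ N) (ha : ∀ e, ¬ p ∣ a e)
    (hf : Prime (ff C u v β a)) (hv : ∀ e, Sum.inr (Sum.inr e) ∈ (ff C u v β a).vars) :
    IsResolvableVariety
      (X := Spec (CommRingCat.of (MvPolynomial (Vr τ ny N) k ⧸ Ideal.span {ff C u v β a})))
      (Spec.map (CommRingCat.ofHom (algebraMap k _))) := by
  classical
  have hprime : (Ideal.span {ff C u v β a}).IsPrime :=
    (Ideal.span_singleton_prime hf.ne_zero).2 hf
  set f := ff C u v β a with hfdef
  let K := QK f
  let θ : MvPolynomial (Vr τ ny N) k →ₐ[k] K := theta f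
  let s : Fin τ → K := fun d => θ (X (Sum.inl d))
  let y : Fin ny → K := fun j => θ (X (Sum.inr (Sum.inl j)))
  let x : Fin N → K := fun e => θ (X (Sum.inr (Sum.inr e)))
  let e0 : Fin N := ⟨0, by omega⟩
  let e1 : Fin N := ⟨1, by omega⟩
  have he01 : e0 ≠ e1 := by
    intro h
    have := congrArg Fin.val h
    simp [e0, e1] at this
  have hne : ∀ e e' : Fin N, e ≠ e' →
      (Sum.inr (Sum.inr e) : Vr τ ny N) ≠ Sum.inr (Sum.inr e') := by
    intro e e' h h'
    exact h (Sum.inr_injective (Sum.inr_injective h'))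
  have hs0 : ∀ d, s d ≠ 0 := fun d =>
    (indep_off (hv e0)).ne_zero ⟨Sum.inl d, Sum.inl_ne_inr⟩
  have hy0 : ∀ j, y j ≠ 0 := fun j =>
    (indep_off (hv e0)).ne_zero ⟨Sum.inr (Sum.inl j), fun h =>
      Sum.inl_ne_inr (Sum.inr_injective h)⟩
  have hx0 : ∀ e, x e ≠ 0 := by
    intro e
    by_cases h : e = e0
    · exact (indep_off (hv e1)).ne_zero ⟨Sum.inr (Sum.inr e), hne _ _ (h ▸ he01)⟩
    · exact (indep_off (hv e0)).ne_zero ⟨Sum.inr (Sum.inr e), hne _ _ h⟩
  -- the field of the coefficients
  let E : IntermediateField k K := IntermediateField.adjoin k (Set.range s)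
  have hsind : AlgebraicIndependent k s :=
    (indep_off (hv e0)).comp (fun d : Fin τ => ⟨Sum.inl d, Sum.inl_ne_inr⟩) (by
      intro d d' h
      exact Sum.inl_injective (congrArg Subtype.val h))
  have hE : (Algebra.trdeg k E = 2 ∧ HasModel k E) ∨ HasLogModels k E := by
    rcases hτ with h | h
    · right
      apply hasLogModels_of_surjective
      subst h
      have h1 : Set.range s = ∅ := Set.range_eq_empty s
      have h2 : E = ⊥ := by
        change IntermediateField.adjoin k (Set.range s) = ⊥
        rw [h1, IntermediateField.adjoin_empty]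
      rintro ⟨z, hz⟩
      rw [h2, IntermediateField.mem_bot] at hz
      obtain ⟨c, hc⟩ := hz
      exact ⟨c, Subtype.ext hc⟩
    · left
      subst h
      exact Pool.Agent.TH188.WP.pair_field s hsind
  let ρ : MvPolynomial (Fin τ) k →ₐ[k] E :=
    aeval fun d => (⟨s d, IntermediateField.subset_adjoin k _ ⟨d, rfl⟩⟩ : E)
  have hρ : ∀ c, algebraMap E K (ρ c) = θ (cf ny N c) := by
    intro c
    have h1 : (IsScalarTower.toAlgHom k E K).comp ρ = θ.comp (cf ny N) := by
      apply algHom_ext
      intro d
      simp only [ρ, cf, AlgHom.comp_apply, aeval_X, rename_X]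
      rfl
    exact DFunLike.congr_fun h1 c
  -- the kernel vector
  have hdet : (θ.mapMatrix (MM C u v β a)).det = 0 := by
    rw [← AlgHom.map_det]
    exact theta_self f
  obtain ⟨w', hw'0, hw'⟩ := Matrix.exists_mulVec_eq_zero_iff.2 hdet
  obtain ⟨j0, hj0⟩ : ∃ j, w' j ≠ 0 := by
    by_contra hcon
    push Not at hcon
    exact hw'0 (funext hcon)
  let w : Fin m → K := fun j => w' j / w' j0
  have hw0 : w j0 = 1 := div_self hj0
  let t : Fin N → K := fun e => (∏ j, y j ^ β e j) * x e ^ a e
  have htP : ∀ e, θ (tP k τ β a e) = t e := by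
    intro e
    simp only [tP, map_mul, map_prod, map_pow]
    rfl
  let ℓ : Fin N → K := fun e => ∑ j, θ (cf ny N (u e j)) * w j
  let z : Fin N → K := fun e => t e * ℓ e
  have hentry : ∀ i j, θ.mapMatrix (MM C u v β a) i j = θ (cf ny N (C i j)) +
      ∑ e, t e * (θ (cf ny N (v e i)) * θ (cf ny N (u e j))) := by
    intro i j
    change θ (cf ny N (C i j) + ∑ e, tP k τ β a e * (cf ny N (v e i) * cf ny N (u e j))) = _
    simp only [map_add, map_sum, map_mul, htP]
  have hrow : ∀ i, ∑ j, θ (cf ny N (C i j)) * w j + ∑ e, θ (cf ny N (v e i)) * z e = 0 := by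
    intro i
    have h1 : ∑ j, θ.mapMatrix (MM C u v β a) i j * w j = 0 := by
      have h2 := congrFun hw' i
      have h3 : ∑ j, θ.mapMatrix (MM C u v β a) i j * w' j = 0 := h2
      have h4 : ∀ j, θ.mapMatrix (MM C u v β a) i j * w j =
          (θ.mapMatrix (MM C u v β a) i j * w' j) * (w' j0)⁻¹ := by
        intro j
        change _ * (w' j / w' j0) = _
        rw [div_eq_mul_inv, mul_assoc]
      rw [Finset.sum_congr rfl fun j _ => h4 j, ← Finset.sum_mul, h3, zero_mul]
    have h5 : ∀ j, θ.mapMatrix (MM C u v β a) i j * w j = θ (cf ny N (C i j)) * w j +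
        ∑ e, t e * (θ (cf ny N (v e i)) * θ (cf ny N (u e j))) * w j := by
      intro j
      rw [hentry, add_mul, Finset.sum_mul]
    rw [← h1, Finset.sum_congr rfl fun j _ => h5 j, Finset.sum_add_distrib]
    congr 1
    rw [Finset.sum_comm]
    refine Finset.sum_congr rfl fun e _ => ?_
    change _ * (t e * ∑ j, θ (cf ny N (u e j)) * w j) = _
    rw [Finset.mul_sum, Finset.mul_sum]
    exact Finset.sum_congr rfl fun j _ => by ring
  -- the linear forms do not vanish
  have hχe : ∀ e (c : MvPolynomial (Fin τ) k),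
      chi f (Sum.inr (Sum.inr e)) (cf ny N c) = Polynomial.C (θ (cf ny N c)) := by
    intro e c
    have h1 : (chi f (Sum.inr (Sum.inr e))).comp (cf ny N) =
        (Polynomial.CAlgHom : K →ₐ[k] Polynomial K).comp (θ.comp (cf ny N)) := by
      apply algHom_ext
      intro d
      simp only [cf, AlgHom.comp_apply, rename_X]
      rw [chi_X_of_ne Sum.inl_ne_inr]
      rfl
    exact DFunLike.congr_fun h1 c
  have hχt : ∀ e e', e' ≠ e →
      chi f (Sum.inr (Sum.inr e)) (tP k τ β a e') = Polynomial.C (t e') := by
    intro e e' h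
    simp only [tP, map_mul, map_prod, map_pow]
    rw [chi_X_of_ne (hne _ _ h)]
    have h1 : ∀ j : Fin ny, chi f (Sum.inr (Sum.inr e)) (X (Sum.inr (Sum.inl j))) =
        Polynomial.C (y j) := by
      intro j
      exact chi_X_of_ne (fun h => Sum.inl_ne_inr (Sum.inr_injective h))
    simp only [h1]
    simp only [t, map_mul, map_prod, map_pow]
    rfl
  have hχentry : ∀ e i j, (chi f (Sum.inr (Sum.inr e))).mapMatrix (MM C u v β a) i j =
      Polynomial.C (θ (cf ny N (C i j))) +
      ∑ e', chi f (Sum.inr (Sum.inr e)) (tP k τ β a e') *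
        (Polynomial.C (θ (cf ny N (v e' i))) * Polynomial.C (θ (cf ny N (u e' j)))) := by
    intro e i j
    change chi f (Sum.inr (Sum.inr e))
      (cf ny N (C i j) + ∑ e, tP k τ β a e * (cf ny N (v e i) * cf ny N (u e j))) = _
    simp only [map_add, map_sum, map_mul, hχe]
  have hdetχ : ∀ e, ((chi f (Sum.inr (Sum.inr e))).mapMatrix (MM C u v β a)).det ≠ 0 := by
    intro e h
    rw [← AlgHom.map_det] at h
    have h1 : ff C u v β a = 0 := chi_injective (hv e) (by rw [map_zero]; exact h)
    exact hf.ne_zero h1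
  have hℓ0 : ∀ e, ℓ e ≠ 0 := by
    intro e he
    apply hdetχ e
    rw [← Matrix.exists_mulVec_eq_zero_iff]
    refine ⟨fun j => Polynomial.C (w j), ?_, ?_⟩
    · intro h
      have h1 := congrFun h j0
      change Polynomial.C (w j0) = 0 at h1
      rw [hw0] at h1
      exact one_ne_zero (Polynomial.C_eq_zero.1 h1)
    · funext i
      change ∑ j, (chi f (Sum.inr (Sum.inr e))).mapMatrix (MM C u v β a) i j *
        Polynomial.C (w j) = 0
      have h1 : ∀ e', chi f (Sum.inr (Sum.inr e)) (tP k τ β a e') *
          (Polynomial.C (θ (cf ny N (v e' i))) * Polynomial.C (ℓ e')) =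
          Polynomial.C (θ (cf ny N (v e' i)) * z e') := by
        intro e'
        by_cases h : e' = e
        · have h2 : z e' = 0 := by
            change t e' * ℓ e' = 0
            rw [h, he, mul_zero]
          rw [h2, h, he]
          simp
        · rw [hχt e e' h]
          simp only [z, map_mul]
          ring
      have h3 : ∑ j, (chi f (Sum.inr (Sum.inr e))).mapMatrix (MM C u v β a) i j *
          Polynomial.C (w j) = Polynomial.C (∑ j, θ (cf ny N (C i j)) * w j +
            ∑ e', θ (cf ny N (v e' i)) * z e') := by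
        rw [map_add, map_sum, map_sum]
        simp_rw [hχentry, add_mul, Finset.sum_add_distrib, Finset.sum_mul]
        congr 1
        · exact Finset.sum_congr rfl fun j _ => (map_mul _ _ _).symm
        · rw [Finset.sum_comm]
          refine Finset.sum_congr rfl fun e' _ => ?_
          rw [← h1 e']
          change _ = _ * (_ * Polynomial.C (∑ j, θ (cf ny N (u e' j)) * w j))
          rw [map_sum, Finset.mul_sum, Finset.mul_sum]
          refine Finset.sum_congr rfl fun j _ => ?_
          rw [map_mul]
          ring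
      rw [h3, hrow i, map_zero]
  have hrank : ∀ l : Fin m → E, (∀ j, ∑ i, l i * ρ (C i j) = 0) →
      (∀ e, ∑ i, l i * ρ (v e i) = 0) → l = 0 := by
    intro l h1 h2
    by_contra hl
    apply hdetχ e0
    rw [← Matrix.exists_vecMul_eq_zero_iff]
    refine ⟨fun i => Polynomial.C (algebraMap E K (l i)), ?_, ?_⟩
    · intro h
      apply hl
      funext i
      have h3 := congrFun h i
      exact (algebraMap E K).injective (by
        rw [Pi.zero_apply, map_zero]
        exact Polynomial.C_eq_zero.1 h3)
    · funext j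
      change ∑ i, Polynomial.C (algebraMap E K (l i)) *
        (chi f (Sum.inr (Sum.inr e0))).mapMatrix (MM C u v β a) i j = 0
      simp_rw [hχentry, mul_add, Finset.sum_add_distrib, Finset.mul_sum]
      have h3 : ∑ i, Polynomial.C (algebraMap E K (l i)) *
          Polynomial.C (θ (cf ny N (C i j))) = 0 := by
        have h4 := congrArg (fun c => Polynomial.C (algebraMap E K c)) (h1 j)
        simp only [map_sum, map_mul, hρ, map_zero] at h4
        exact h4
      rw [h3, zero_add, Finset.sum_comm]
      refine Finset.sum_eq_zero fun e _ => ?_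
      have h5 : ∑ i, Polynomial.C (algebraMap E K (l i)) *
          Polynomial.C (θ (cf ny N (v e i))) = 0 := by
        have h4 := congrArg (fun c => Polynomial.C (algebraMap E K c)) (h2 e)
        simp only [map_sum, map_mul, hρ, map_zero] at h4
        exact h4
      have h6 : ∀ i, Polynomial.C (algebraMap E K (l i)) *
          (chi f (Sum.inr (Sum.inr e0)) (tP k τ β a e) *
          (Polynomial.C (θ (cf ny N (v e i))) * Polynomial.C (θ (cf ny N (u e j))))) =
          (Polynomial.C (algebraMap E K (l i)) * Polynomial.C (θ (cf ny N (v e i)))) *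
            (chi f (Sum.inr (Sum.inr e0)) (tP k τ β a e) *
              Polynomial.C (θ (cf ny N (u e j)))) := fun i => by ring
      rw [Finset.sum_congr rfl fun i _ => h6 i, ← Finset.sum_mul, h5, zero_mul]
  -- generation
  have hmem : ∀ q : Vr τ ny N, θ (X q) ∈ Set.range s ∪ (Set.range y ∪ Set.range x) := by
    rintro (q | j | i)
    · exact Or.inl ⟨q, rfl⟩
    · exact Or.inr (Or.inl ⟨j, rfl⟩)
    · exact Or.inr (Or.inr ⟨i, rfl⟩)
  have hgen : IntermediateField.adjoin E (Set.range y ∪ Set.range x) = ⊤ := by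
    rw [eq_top_iff]
    rintro q -
    have h1 : ∀ P : MvPolynomial (Vr τ ny N) k, θ P ∈
        IntermediateField.adjoin E (Set.range y ∪ Set.range x) := by
      intro P
      induction P using MvPolynomial.induction_on with
      | C c =>
        have h2 : θ (MvPolynomial.C c) = algebraMap E K (algebraMap k E c) := θ.commutes c
        rw [h2]
        exact IntermediateField.algebraMap_mem _ _
      | add P Q hP hQ =>
        rw [map_add]
        exact add_mem hP hQ
      | mul_X P q hP =>
        rw [map_mul]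
        refine mul_mem hP ?_
        rcases hmem q with ⟨d, hd⟩ | h
        · rw [← hd]
          exact IntermediateField.algebraMap_mem
            (IntermediateField.adjoin E (Set.range y ∪ Set.range x))
            (⟨s d, IntermediateField.subset_adjoin k _ ⟨d, rfl⟩⟩ : E)
        · exact IntermediateField.subset_adjoin E _ h
    obtain ⟨c, d, -, rfl⟩ := IsFractionRing.div_surjective (A := QR f) q
    obtain ⟨c, rfl⟩ := Ideal.Quotient.mk_surjective c
    obtain ⟨d, rfl⟩ := Ideal.Quotient.mk_surjective d
    exact IntermediateField.div_mem _ (h1 c) (h1 d)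
  -- the transcendence degree
  have htr : ((ny + N : ℕ) : Cardinal) ≤ Algebra.trdeg E K + 1 := by
    let J := Fin ny ⊕ {e : Fin N // e ≠ e0}
    have h1 : AlgebraicIndependent k (Sum.elim (Sum.elim y fun e : {e : Fin N // e ≠ e0} => x e)
        s) := by
      let ι : (J ⊕ Fin τ) → {q : Vr τ ny N // q ≠ Sum.inr (Sum.inr e0)} :=
        Sum.elim (Sum.elim (fun j => ⟨Sum.inr (Sum.inl j), fun h =>
          Sum.inl_ne_inr (Sum.inr_injective h)⟩) fun e => ⟨Sum.inr (Sum.inr e.1), hne _ _ e.2⟩)
          fun d => ⟨Sum.inl d, Sum.inl_ne_inr⟩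
      have hι : Function.Injective ι := by
        rintro ((j | e) | d) ((j' | e') | d') h
        · have h2 := congrArg Subtype.val h
          have h3 : j = j' := by simpa [ι] using h2
          rw [h3]
        · have h2 := congrArg Subtype.val h
          simp [ι] at h2
        · have h2 := congrArg Subtype.val h
          simp [ι] at h2
        · have h2 := congrArg Subtype.val h
          simp [ι] at h2
        · have h2 := congrArg Subtype.val h
          have h3 : e.1 = e'.1 := by simpa [ι] using h2
          rw [Subtype.ext h3]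
        · have h2 := congrArg Subtype.val h
          simp [ι] at h2
        · have h2 := congrArg Subtype.val h
          simp [ι] at h2
        · have h2 := congrArg Subtype.val h
          simp [ι] at h2
        · have h2 := congrArg Subtype.val h
          have h3 : d = d' := by simpa [ι] using h2
          rw [h3]
      have h2 := (indep_off (hv e0)).comp ι hι
      convert h2 using 1
      funext q
      rcases q with (j | e) | d <;> rfl
    have h2 := (AlgebraicIndependent.sumElim_iff.1 h1).2
    have h3 : AlgebraicIndependent E (Sum.elim y fun e : {e : Fin N // e ≠ e0} => x e) :=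
      IntermediateField.algebraicIndependent_adjoin_iff.2 h2
    have h4 := h3.lift_cardinalMk_le_trdeg
    have h5 : Fintype.card J + 1 = ny + N := by
      have h6 : Fintype.card {e : Fin N // e ≠ e0} = N - 1 := by
        rw [Fintype.card_subtype_compl, Fintype.card_fin, Fintype.card_subtype_eq]
      simp only [J, Fintype.card_sum, Fintype.card_fin, h6]
      omega
    have h8 : Cardinal.mk (Fin ny ⊕ {e : Fin N // e ≠ e0}) = ((Fintype.card J : ℕ) : Cardinal) :=
      Cardinal.mk_fintype _
    rw [h8, Cardinal.lift_natCast, Cardinal.lift_id'] at h4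
    have h7 : ((Fintype.card J : ℕ) : Cardinal) ≤ Algebra.trdeg E K := h4
    rw [← h5, Nat.cast_add, Nat.cast_one]
    exact Cardinal.add_one_le_add_one_iff.2 h7
  -- the units
  have hX0 : ∀ q : Vr τ ny N, θ (X q) ≠ 0 := by
    rintro (q | j | i)
    · exact hs0 q
    · exact hy0 j
    · exact hx0 i
  let S : Finset Kˣ := Finset.univ.image fun q : Vr τ ny N => Units.mk0 (θ (X q)) (hX0 q)
  have hℓmem : ∀ e, ℓ e ∈ V0 E w z := by
    intro e
    refine Submodule.sum_mem _ fun j _ => ?_
    rw [← hρ, ← Algebra.smul_def]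
    exact Submodule.smul_mem _ _ (w_mem w z j)
  refine core p k E K (QR f) hE (Matrix.of fun i j => ρ (C i j)) (fun e i => ρ (v e i)) w z y x t β a
    ℓ j0 hw0 ha hy0 hx0 (fun e => rfl) hℓmem hℓ0 (fun e => rfl) ?_ hrank hgen htr S ?_ ?_
  · intro i
    rw [← hrow i]
    simp only [hρ, Matrix.of_apply]
  · intro q hq
    obtain ⟨q, -, rfl⟩ := Finset.mem_image.1 hq
    rcases hmem q with ⟨d, hd⟩ | ⟨j, hj⟩ | ⟨e, he⟩
    · exact Or.inl ⟨⟨s d, IntermediateField.subset_adjoin k _ ⟨d, rfl⟩⟩, hd⟩
    · exact Or.inr (Or.inl ⟨j, hj⟩)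
    · exact Or.inr (Or.inr ⟨e, he⟩)
  · have h1 : (Units.val '' (S : Set Kˣ)) = θ '' (Set.range X) := by
      ext q
      constructor
      · rintro ⟨q', hq', rfl⟩
        obtain ⟨q'', -, rfl⟩ := Finset.mem_image.1 (Finset.mem_coe.1 hq')
        exact ⟨X q'', ⟨q'', rfl⟩, rfl⟩
      · rintro ⟨_, ⟨q', rfl⟩, rfl⟩
        exact ⟨Units.mk0 (θ (X q')) (hX0 q'),
          Finset.mem_coe.2 (Finset.mem_image_of_mem _ (Finset.mem_univ _)), rfl⟩
    rw [h1, ← AlgHom.map_adjoin, MvPolynomial.adjoin_range_X, Algebra.map_top]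
    apply le_antisymm
    · rintro _ ⟨c, rfl⟩
      obtain ⟨c, rfl⟩ := Ideal.Quotient.mk_surjective c
      exact ⟨c, rfl⟩
    · rintro _ ⟨c, rfl⟩
      exact ⟨Ideal.Quotient.mk _ c, rfl⟩

end

end Pool.Agent.X326.RK
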