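import Pool.Agent.X326.RK.Rel
import Pool.Agent.W558.T3.PLF

/-!
# The field of a determinantal hypersurface
-/

set_option autoImplicit false

universe u

open Submodule Pool.Agent.W558 AlgebraicGeometry CategoryTheory

namespace Pool.Agent.X326.RK

section

variable {E K : Type u} [Field E] [Field K] [Algebra E K] {m N ny : ℕ} (w : Fin m → K)
  (z : Fin N → K) (y : Fin ny → K) (x : Fin N → K) (β : Fin N → Fin ny → ℕ) (a : Fin N → ℕ)
  (ℓ : Fin N → K) (j0 : Fin m)

/-- the indices of the spaces -/
abbrev SI (ny N : ℕ) : Type := Option (Fin ny ⊕ Fin N)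

/-- the number of the spaces -/
abbrev nS (ny N : ℕ) : ℕ := Fintype.card (SI ny N)

/-- numbering of the spaces -/
noncomputable def eS (ny N : ℕ) : SI ny N ≃ Fin (nS ny N) := Fintype.equivFin _

/-- the spaces -/
def Vt (E : Type u) {K : Type u} [Field E] [Field K] [Algebra E K] {m N ny : ℕ} (w : Fin m → K)
    (z : Fin N → K) (y : Fin ny → K) (x : Fin N → K) : SI ny N → Submodule E K
  | none => V0 E w z
  | some (Sum.inl j) => span E {y j}
  | some (Sum.inr e) => span E {x e}

/-- the spaces -/
noncomputable def VV (s : Fin (nS ny N)) : Submodule E K := Vt E w z y x ((eS ny N).symm s)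

instance (s : Fin (nS ny N)) : FiniteDimensional E (VV (E := E) w z y x s) := by
  rw [VV]
  rcases (eS ny N).symm s with _ | j | e
  · change FiniteDimensional E (V0 E w z)
    infer_instance
  · change FiniteDimensional E (span E {y j})
    infer_instance
  · change FiniteDimensional E (span E {x e})
    infer_instance

/-- the degrees of the terms: the first relation is `w j0 = 1`, the others are
`y ^ β * x ^ a * ℓ = z` -/
def dd (j : Fin (N + 1)) (i : Bool) : SI ny N → ℕ :=
  Fin.cases (motive := fun _ => SI ny N → ℕ)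
    (fun s => if i then (match s with | none => 1 | some _ => 0) else 0)
    (fun e s => if i then (match s with | none => 1 | some _ => 0) else
      (match s with
        | none => 1
        | some (Sum.inl j) => β e j
        | some (Sum.inr e') => if e' = e then a e else 0)) j

/-- the factors of the terms -/
def gg (j : Fin (N + 1)) (i : Bool) : SI ny N → K :=
  Fin.cases (motive := fun _ => SI ny N → K)
    (fun s => match s with | none => w j0 | some (Sum.inl j) => y j | some (Sum.inr e) => x e)
    (fun e s => match s with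
      | none => if i then z e else ℓ e
      | some (Sum.inl j) => y j
      | some (Sum.inr e) => x e) j

/-- the coefficients of the terms -/
def cc (E : Type u) [Field E] {N : ℕ} (_ : Fin (N + 1)) (i : Bool) : E := if i then 1 else -1

/-- the degrees -/
lemma dd_zero_true (s : SI ny N) : dd β a 0 true s = match s with | none => 1 | some _ => 0 := rfl

lemma dd_zero_false (s : SI ny N) : dd β a 0 false s = 0 := rfl

lemma dd_succ_true (e : Fin N) (s : SI ny N) :
    dd β a e.succ true s = match s with | none => 1 | some _ => 0 := rfl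

lemma dd_succ_false (e : Fin N) (s : SI ny N) :
    dd β a e.succ false s = match s with
        | none => 1
        | some (Sum.inl j) => β e j
        | some (Sum.inr e') => if e' = e then a e else 0 := rfl

lemma prod_SI (f : SI ny N → K) :
    ∏ s : Fin (nS ny N), f ((eS ny N).symm s) =
      f none * ((∏ j, f (some (Sum.inl j))) * ∏ e, f (some (Sum.inr e))) := by
  rw [Equiv.prod_comp (eS ny N).symm f, Fintype.prod_option, Fintype.prod_sum_type]

lemma sum_SI (f : SI ny N → ℕ) :
    ∑ s : Fin (nS ny N), f ((eS ny N).symm s) =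
      f none + ((∑ j, f (some (Sum.inl j))) + ∑ e, f (some (Sum.inr e))) := by
  rw [Equiv.sum_comp (eS ny N).symm f, Fintype.sum_option, Fintype.sum_sum_type]

/-- the product of a term -/
lemma term (j : Fin (N + 1)) (i : Bool) :
    ∏ s : Fin (nS ny N), ∏ _t : Fin (dd β a j i ((eS ny N).symm s)),
      gg w z y x ℓ j0 j i ((eS ny N).symm s) =
    gg w z y x ℓ j0 j i none ^ dd (ny := ny) β a j i none *
      ((∏ j', gg w z y x ℓ j0 j i (some (Sum.inl j')) ^ dd β a j i (some (Sum.inl j'))) *
        ∏ e, gg w z y x ℓ j0 j i (some (Sum.inr e)) ^ dd β a j i (some (Sum.inr e))) := by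
  rw [← prod_SI (fun s => gg w z y x ℓ j0 j i s ^ dd β a j i s)]
  refine Finset.prod_congr rfl fun s _ => ?_
  rw [Finset.prod_const, Finset.card_univ, Fintype.card_fin]

lemma relation_zero (hw0 : w j0 = 1) :
    (0 : K) = ∑ i : Bool, algebraMap E K (cc E (0 : Fin (N + 1)) i) *
      ∏ s : Fin (nS ny N), ∏ _t : Fin (dd β a 0 i ((eS ny N).symm s)),
        gg w z y x ℓ j0 0 i ((eS ny N).symm s) := by
  rw [Fintype.sum_bool, term, term]
  simp [dd_zero_true, dd_zero_false, cc, gg, hw0]

lemma relation_succ (t : Fin N → K) (ht : ∀ e, t e = (∏ j, y j ^ β e j) * x e ^ a e)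
    (hz : ∀ e, z e = t e * ℓ e) (e : Fin N) :
    (0 : K) = ∑ i : Bool, algebraMap E K (cc E e.succ i) *
      ∏ s : Fin (nS ny N), ∏ _t : Fin (dd β a e.succ i ((eS ny N).symm s)),
        gg w z y x ℓ j0 e.succ i ((eS ny N).symm s) := by
  rw [Fintype.sum_bool, term, term]
  have h1 : ∏ e', x e' ^ (if e' = e then a e else 0) = x e ^ a e := by
    rw [Finset.prod_eq_single e]
    · rw [if_pos rfl]
    · intro e' _ he'
      rw [if_neg he', pow_zero]
    · intro h
      exact absurd (Finset.mem_univ _) h
  simp only [dd_succ_true, dd_succ_false, cc, gg, Fin.cases_succ, if_true, pow_one, pow_zero,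
    Finset.prod_const_one, mul_one, map_one, one_mul, map_neg, h1, Bool.false_eq_true, if_false]
  rw [hz e, ht e]
  ring

/-- the differences of the degrees are linearly independent -/
lemma indep (p : ℕ) [Fact p.Prime] (ha : ∀ e, ¬ p ∣ a e) :
    LinearIndependent (ZMod p) fun q : (_ : Fin (N + 1)) × {i : Bool // i ≠ true} =>
      (fun s : Fin (nS ny N) => ((dd β a q.1 q.2 ((eS ny N).symm s) : ℕ) : ZMod p)) -
        fun s : Fin (nS ny N) => ((dd β a q.1 true ((eS ny N).symm s) : ℕ) : ZMod p) := by
  classical
  rw [Fintype.linearIndependent_iff]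
  intro c hc
  have hfalse : ∀ i : {i : Bool // i ≠ true}, i = ⟨false, Bool.false_ne_true⟩ := by
    rintro ⟨i, hi⟩
    apply Subtype.ext
    exact Bool.eq_false_of_not_eq_true hi
  let c' : Fin (N + 1) → ZMod p := fun j => c ⟨j, ⟨false, Bool.false_ne_true⟩⟩
  have hc' : ∀ s : SI ny N, ∑ j, c' j * (((dd β a j false s : ℕ) : ZMod p) -
      ((dd β a j true s : ℕ) : ZMod p)) = 0 := by
    intro s
    have h1 := congrFun hc (eS ny N s)
    rw [Finset.sum_apply] at h1
    simp only [Pi.smul_apply, Pi.sub_apply, smul_eq_mul, Equiv.symm_apply_apply] at h1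
    have h2 : ∑ q : (_ : Fin (N + 1)) × {i : Bool // i ≠ true},
        c q * (((dd β a q.1 q.2 s : ℕ) : ZMod p) - ((dd β a q.1 true s : ℕ) : ZMod p)) =
        ∑ j, c' j * (((dd β a j false s : ℕ) : ZMod p) -
          ((dd β a j true s : ℕ) : ZMod p)) := by
      rw [Fintype.sum_sigma]
      refine Finset.sum_congr rfl fun j _ => ?_
      rw [Fintype.sum_eq_single (⟨false, Bool.false_ne_true⟩ : {i : Bool // i ≠ true})
        fun i hi => absurd (hfalse i) hi]
    rw [← h2]
    exact h1
  have h3 : ∀ e : Fin N, c' e.succ = 0 := by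
    intro e
    have h4 := hc' (some (Sum.inr e))
    rw [Fin.sum_univ_succ, dd_zero_true, dd_zero_false] at h4
    simp only [dd_succ_true, dd_succ_false] at h4
    rw [Finset.sum_eq_single e] at h4
    · rw [if_pos rfl] at h4
      simp only [Nat.cast_zero, sub_zero, mul_zero, zero_add] at h4
      rcases mul_eq_zero.1 h4 with h5 | h5
      · exact h5
      · exact absurd ((ZMod.natCast_eq_zero_iff _ _).1 h5) (ha e)
    · intro e' _ he'
      rw [if_neg (Ne.symm he')]
      simp
    · intro h
      exact absurd (Finset.mem_univ _) h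
  have h5 : c' 0 = 0 := by
    have h4 := hc' none
    rw [Fin.sum_univ_succ, dd_zero_true, dd_zero_false] at h4
    simp only [h3, zero_mul, Finset.sum_const_zero, add_zero] at h4
    simpa using h4
  rintro ⟨j, i⟩
  rw [hfalse i]
  refine Fin.cases ?_ (fun e => ?_) j
  · exact h5
  · exact h3 e

end

end Pool.Agent.X326.RK
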