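import Pool.Agent.X326.RK.Core

/-!
# Resolution of varieties with the field of a determinantal hypersurface
-/

set_option autoImplicit false

universe u

open Submodule Pool.Agent.W558 AlgebraicGeometry CategoryTheory

namespace Pool.Agent.X326.RK

theorem core (p : ℕ) [Fact p.Prime] (k E K A : Type u) [Field k] [PerfectField k] [CharP k p]
    [Field E] [Algebra k E] (hE : (Algebra.trdeg k E = 2 ∧ HasModel k E) ∨ HasLogModels k E)
    [Field K] [Algebra E K] [Algebra k K] [IsScalarTower k E K] {m N ny : ℕ}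
    (C : Matrix (Fin m) (Fin m) E) (v : Fin N → Fin m → E) (w : Fin m → K) (z : Fin N → K)
    (y : Fin ny → K) (x : Fin N → K) (t : Fin N → K) (β : Fin N → Fin ny → ℕ) (a : Fin N → ℕ)
    (ℓ : Fin N → K) (j0 : Fin m) (hw0 : w j0 = 1) (ha : ∀ e, ¬ p ∣ a e)
    (hy : ∀ j, y j ≠ 0) (hx : ∀ e, x e ≠ 0)
    (ht : ∀ e, t e = (∏ j, y j ^ β e j) * x e ^ a e) (hℓ : ∀ e, ℓ e ∈ V0 E w z)
    (hℓ0 : ∀ e, ℓ e ≠ 0) (hz : ∀ e, z e = t e * ℓ e)
    (hw : ∀ i, ∑ j, algebraMap E K (C i j) * w j + ∑ e, algebraMap E K (v e i) * z e = 0)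
    (hrank : ∀ l : Fin m → E, (∀ j, ∑ i, l i * C i j = 0) → (∀ e, ∑ i, l i * v e i = 0) → l = 0)
    (hgen : IntermediateField.adjoin E (Set.range y ∪ Set.range x) = ⊤)
    (htr' : ((ny + N : ℕ) : Cardinal) ≤ Algebra.trdeg E K + 1)
    [CommRing A] [IsDomain A] [Algebra k A] [Algebra A K] [IsScalarTower k A K]
    [IsFractionRing A K] (S : Finset Kˣ)
    (hS : ∀ s ∈ S, (∃ b, algebraMap E K b = s) ∨ (∃ j, y j = s) ∨ ∃ e, x e = s)
    (hA : (IsScalarTower.toAlgHom k A K).range = Algebra.adjoin k (Units.val '' (S : Set Kˣ))) :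
    IsResolvableVariety (X := Spec (CommRingCat.of A))
      (Spec.map (CommRingCat.ofHom (algebraMap k A))) := by
  classical
  have hfle := finrank_le C v w z hw hrank
  have htle := trdeg_le y x t β a (fun e h => ha e (h ▸ dvd_zero p)) hy ht ℓ hℓ hℓ0 hz hw0 hgen
  have hfin : Module.finrank E (V0 E w z) = N := by
    have h2 := htr'.trans htle
    rw [Nat.cast_le] at h2
    omega
  have htr : Algebra.trdeg E K + 1 = ((ny + N : ℕ) : Cardinal) := by
    apply le_antisymm _ htr'
    rw [hfin, add_comm N ny] at htle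
    exact htle
  have hVy : ∀ j, VV (E := E) w z y x (eS ny N (some (Sum.inl j))) = span E {y j} := by
    intro j
    rw [VV, Equiv.symm_apply_apply]
    rfl
  have hVx : ∀ e, VV (E := E) w z y x (eS ny N (some (Sum.inr e))) = span E {x e} := by
    intro e
    rw [VV, Equiv.symm_apply_apply]
    rfl
  have hfinV : ∑ s, Module.finrank E (VV (E := E) w z y x s) = N + (ny + N) := by
    have h1 : ∀ s, Module.finrank E (VV (E := E) w z y x s) =
        (fun s' : SI ny N => Module.finrank E (Vt E w z y x s')) ((eS ny N).symm s) := fun s => rfl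
    rw [Finset.sum_congr rfl fun s _ => h1 s,
      sum_SI (fun s' : SI ny N => Module.finrank E (Vt E w z y x s'))]
    have h2 : Module.finrank E (Vt E w z y x none) = N := hfin
    rw [h2]
    congr 1
    congr 1
    · have h3 : ∀ j : Fin ny, Module.finrank E (Vt E w z y x (some (Sum.inl j))) = 1 :=
        fun j => finrank_span_singleton (K := E) (hy j)
      simp only [h3]
      simp
    · have h3 : ∀ e : Fin N, Module.finrank E (Vt E w z y x (some (Sum.inr e))) = 1 :=
        fun e => finrank_span_singleton (K := E) (hx e)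
      simp only [h3]
      simp
  refine plf_main p k E K A hE (nS ny N) (VV (E := E) w z y x) ?_ (N + 1) (fun _ => Bool)
    (fun _ => true) (fun j i => cc E j i) ?_ (fun j i s => dd β a j i ((eS ny N).symm s))
    (fun j i s _ => gg w z y x ℓ j0 j i ((eS ny N).symm s)) ?_ ?_ (fun _ _ _ => 0) (fun _ => 0)
    ?_ ?_ (fun j s => ((dd β a j true ((eS ny N).symm s) : ℕ) : ZMod p)) ?_ ?_ ?_ S ?_ hA
  · -- generation
    rw [eq_top_iff, ← hgen, IntermediateField.adjoin_le_iff]
    rintro q (⟨j, rfl⟩ | ⟨e, rfl⟩)
    · apply IntermediateField.subset_adjoin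
      refine Set.mem_iUnion.2 ⟨eS ny N (some (Sum.inl j)), ?_⟩
      rw [hVy j]
      exact mem_span_singleton_self _
    · apply IntermediateField.subset_adjoin
      refine Set.mem_iUnion.2 ⟨eS ny N (some (Sum.inr e)), ?_⟩
      rw [hVx e]
      exact mem_span_singleton_self _
  · intro j i
    rcases i with _ | _
    · exact neg_ne_zero.2 one_ne_zero
    · exact one_ne_zero
  · -- membership
    intro j i s tt
    change gg w z y x ℓ j0 j i ((eS ny N).symm s) ∈ Vt E w z y x ((eS ny N).symm s)
    rcases (eS ny N).symm s with _ | j' | e'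
    · refine Fin.cases ?_ (fun e => ?_) j
      · exact w_mem w z j0
      · change (if i = true then z e else ℓ e) ∈ V0 E w z
        split_ifs
        · exact z_mem w z e
        · exact hℓ e
    · refine Fin.cases ?_ (fun e => ?_) j
      · exact mem_span_singleton_self _
      · exact mem_span_singleton_self _
    · refine Fin.cases ?_ (fun e => ?_) j
      · exact mem_span_singleton_self _
      · exact mem_span_singleton_self _
  · -- nonzero
    have hz0 : ∀ e, z e ≠ 0 := by
      intro e
      rw [hz e, ht e]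
      exact mul_ne_zero (mul_ne_zero (Finset.prod_ne_zero_iff.2 fun j _ => pow_ne_zero _ (hy j))
        (pow_ne_zero _ (hx e))) (hℓ0 e)
    intro j i s tt
    change gg w z y x ℓ j0 j i ((eS ny N).symm s) ≠ 0
    rcases (eS ny N).symm s with _ | j' | e'
    · refine Fin.cases ?_ (fun e => ?_) j
      · change w j0 ≠ 0
        rw [hw0]
        exact one_ne_zero
      · change (if i = true then z e else ℓ e) ≠ 0
        split_ifs
        · exact hz0 e
        · exact hℓ0 e
    · refine Fin.cases ?_ (fun e => ?_) j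
      · exact hy j'
      · exact hy j'
    · refine Fin.cases ?_ (fun e => ?_) j
      · exact hx e'
      · exact hx e'
  · intro j i l h
    exact absurd rfl h
  · -- the relations
    intro j
    have h1 : ∀ i : Bool, ∏ _l : Fin (N + 1), ((0 : K)) ^ 0 = 1 := fun i => by simp
    have h2 : (0 : K) = ∑ i : Bool, algebraMap E K (cc E j i) *
      ∏ s : Fin (nS ny N), ∏ _t : Fin (dd β a j i ((eS ny N).symm s)),
        gg w z y x ℓ j0 j i ((eS ny N).symm s) := by
      refine Fin.cases ?_ (fun e => ?_) j
      · exact relation_zero w z y x β a ℓ j0 hw0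
      · exact relation_succ w z y x β a ℓ j0 t ht hz e
    refine h2.trans (Finset.sum_congr rfl fun i _ => ?_)
    rw [h1 i, mul_one]
  · -- degrees
    intro j
    funext s
    simp [Pool.Agent.W418.LCI.dg]
  · -- independence
    have h1 := indep (ny := ny) β a p ha
    convert h1 using 1
    funext q s
    simp [Pool.Agent.W418.LCI.dg]
  · -- the number of the relations
    have h1 : Nat.card {j : Fin (N + 1) // (0 : K) = 0} = N + 1 := by
      rw [Nat.card_eq_fintype_card, Fintype.card_subtype]
      simp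
    have h2 : Nat.card {j : Fin (N + 1) // (fun _ : Fin (N + 1) => (0 : K)) j = 0} = N + 1 := h1
    rw [h2, hfinV, Nat.cast_add, Nat.cast_one, add_comm (N : Cardinal) 1, ← add_assoc, htr,
      Nat.cast_add N (ny + N), add_comm]
  · intro s hs
    apply Subgroup.subset_closure
    rcases hS s hs with h | ⟨j, hj⟩ | ⟨e, he⟩
    · exact Or.inl h
    · refine Or.inr (Or.inl ⟨eS ny N (some (Sum.inl j)), ?_⟩)
      rw [hVy j, ← hj]
      exact mem_span_singleton_self _
    · refine Or.inr (Or.inl ⟨eS ny N (some (Sum.inr e)), ?_⟩)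
      rw [hVx e, ← he]
      exact mem_span_singleton_self _

end Pool.Agent.X326.RK
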