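import Pool.Agent.X326.RL.Lin

/-!
# The linear space of a kernel vector
-/

set_option autoImplicit false

universe u

open Submodule

namespace Pool.Agent.X326.RK

section

variable {E K : Type u} [Field E] [Field K] [Algebra E K] {m N ny : ℕ}
  (C : Matrix (Fin m) (Fin m) E) (v : Fin N → Fin m → E) (w : Fin m → K) (z : Fin N → K)

/-- the space spanned by the kernel vector and the products -/
def V0 (E : Type u) {K : Type u} [Field E] [Field K] [Algebra E K] {m N : ℕ} (w : Fin m → K)
    (z : Fin N → K) : Submodule E K :=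
  span E (Set.range (Sum.elim w z))

instance : FiniteDimensional E (V0 E w z) := by
  apply FiniteDimensional.span_of_finite
  exact Set.finite_range _

lemma w_mem (j : Fin m) : w j ∈ V0 E w z := subset_span ⟨Sum.inl j, rfl⟩

lemma z_mem (e : Fin N) : z e ∈ V0 E w z := subset_span ⟨Sum.inr e, rfl⟩

/-- the dimension of the space -/
theorem finrank_le
    (hw : ∀ i, ∑ j, algebraMap E K (C i j) * w j + ∑ e, algebraMap E K (v e i) * z e = 0)
    (hrank : ∀ l : Fin m → E, (∀ j, ∑ i, l i * C i j = 0) → (∀ e, ∑ i, l i * v e i = 0) → l = 0) :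
    Module.finrank E (V0 E w z) ≤ N := by
  let Φ : (Fin m ⊕ Fin N → E) →ₗ[E] K := Fintype.linearCombination E (Sum.elim w z)
  have hΦ : LinearMap.range Φ = V0 E w z := Fintype.range_linearCombination E _
  let Ψ : (Fin m → E) →ₗ[E] (Fin m ⊕ Fin N → E) :=
    { toFun := fun l => Sum.elim (fun j => ∑ i, l i * C i j) fun e => ∑ i, l i * v e i
      map_add' := by
        intro l l'
        funext q
        rcases q with j | e
        · simp [add_mul, Finset.sum_add_distrib]
        · simp [add_mul, Finset.sum_add_distrib]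
      map_smul' := by
        intro c l
        funext q
        rcases q with j | e
        · simp [Finset.mul_sum, mul_assoc]
        · simp [Finset.mul_sum, mul_assoc] }
  have hΨ : Function.Injective Ψ := by
    rw [injective_iff_map_eq_zero]
    intro l hl
    apply hrank l
    · intro j
      exact congrFun hl (Sum.inl j)
    · intro e
      exact congrFun hl (Sum.inr e)
  have hle : LinearMap.range Ψ ≤ LinearMap.ker Φ := by
    rintro _ ⟨l, rfl⟩
    rw [LinearMap.mem_ker]
    change Fintype.linearCombination E (Sum.elim w z) (Ψ l) = 0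
    rw [Fintype.linearCombination_apply, Fintype.sum_sum_type]
    change ∑ j, (∑ i, l i * C i j) • w j + ∑ e, (∑ i, l i * v e i) • z e = 0
    have h1 : ∑ j, (∑ i, l i * C i j) • w j = ∑ i, l i • ∑ j, algebraMap E K (C i j) * w j := by
      simp_rw [Finset.smul_sum, Finset.sum_smul]
      rw [Finset.sum_comm]
      refine Finset.sum_congr rfl fun i _ => Finset.sum_congr rfl fun j _ => ?_
      rw [mul_smul, Algebra.smul_def (C i j)]
    have h2 : ∑ e, (∑ i, l i * v e i) • z e = ∑ i, l i • ∑ e, algebraMap E K (v e i) * z e := by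
      simp_rw [Finset.smul_sum, Finset.sum_smul]
      rw [Finset.sum_comm]
      refine Finset.sum_congr rfl fun i _ => Finset.sum_congr rfl fun j _ => ?_
      rw [mul_smul, Algebra.smul_def (v j i)]
    rw [h1, h2, ← Finset.sum_add_distrib]
    refine Finset.sum_eq_zero fun i _ => ?_
    rw [← smul_add, hw i, smul_zero]
  have h3 := LinearMap.finrank_range_add_finrank_ker Φ
  have h4 := LinearMap.finrank_range_of_inj hΨ
  have h5 := Submodule.finrank_mono hle
  rw [hΦ, Module.finrank_fintype_fun_eq_card, Fintype.card_sum, Fintype.card_fin,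
    Fintype.card_fin] at h3
  rw [Module.finrank_fintype_fun_eq_card, Fintype.card_fin] at h4
  omega

variable {w z}

/-- The transcendence degree is bounded by the dimension of the space. -/
theorem trdeg_le (y : Fin ny → K) (x : Fin N → K) (t : Fin N → K) (β : Fin N → Fin ny → ℕ)
    (a : Fin N → ℕ) (ha : ∀ e, a e ≠ 0) (hy : ∀ j, y j ≠ 0)
    (ht : ∀ e, t e = (∏ j, y j ^ β e j) * x e ^ a e) (ℓ : Fin N → K) (hℓ : ∀ e, ℓ e ∈ V0 E w z)
    (hℓ0 : ∀ e, ℓ e ≠ 0) (hz : ∀ e, z e = t e * ℓ e) {j0 : Fin m} (hw0 : w j0 = 1)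
    (hgen : IntermediateField.adjoin E (Set.range y ∪ Set.range x) = ⊤) :
    Algebra.trdeg E K + 1 ≤ ((Module.finrank E (V0 E w z) + ny : ℕ) : Cardinal) := by
  classical
  have h1 : (1 : K) ∈ V0 E w z := hw0 ▸ w_mem w z j0
  obtain ⟨B, -, hB1, hB2⟩ := RL.exists_isB (V0 E w z) (span E {(1 : K)}) (Sum.elim w z)
    (span_le.2 (Set.singleton_subset_iff.2 h1)) Finset.univ (by
      rw [Finset.coe_univ, Set.image_univ]
      exact sup_eq_left.2 (span_le.2 (Set.singleton_subset_iff.2 h1)))
  rw [finrank_span_singleton one_ne_zero] at hB2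
  let s : Finset K := B.image (Sum.elim w z) ∪ Finset.univ.image y
  have hV : V0 E w z ≤ Subalgebra.toSubmodule (Algebra.adjoin E (s : Set K)) := by
    rw [← hB1]
    refine sup_le (span_le.2 ?_) (span_le.2 ?_)
    · rintro _ ⟨i, hi, rfl⟩
      exact Algebra.subset_adjoin (Finset.mem_coe.2 (Finset.mem_union_left _
        (Finset.mem_image_of_mem _ hi)))
    · rintro _ rfl
      exact (Algebra.adjoin E (s : Set K)).one_mem
  have hmemV : ∀ q ∈ V0 E w z, IsAlgebraic (Algebra.adjoin E (s : Set K)) q := fun q hq =>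
    isAlgebraic_algebraMap (⟨q, hV hq⟩ : Algebra.adjoin E (s : Set K))
  have hmemy : ∀ j, IsAlgebraic (Algebra.adjoin E (s : Set K)) (y j) := fun j =>
    isAlgebraic_algebraMap (⟨y j, Algebra.subset_adjoin (Finset.mem_coe.2
      (Finset.mem_union_right _ (Finset.mem_image_of_mem _ (Finset.mem_univ j))))⟩ :
        Algebra.adjoin E (s : Set K))
  have hmemx : ∀ e, IsAlgebraic (Algebra.adjoin E (s : Set K)) (x e) := by
    intro e
    have h2 : IsAlgebraic (Algebra.adjoin E (s : Set K)) (∏ j, y j ^ β e j) :=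
      Finset.prod_induction _ _ (fun _ _ h h' => h.mul h') isAlgebraic_one
        fun j _ => (hmemy j).pow _
    have h3 : x e ^ a e = z e * (∏ j, y j ^ β e j)⁻¹ * (ℓ e)⁻¹ := by
      have h4 : ∏ j, y j ^ β e j ≠ 0 := Finset.prod_ne_zero_iff.2 fun j _ => pow_ne_zero _ (hy j)
      have h5 := hℓ0 e
      rw [hz e, ht e]
      field_simp
    have h4 : IsAlgebraic (Algebra.adjoin E (s : Set K)) (x e ^ a e) := by
      rw [h3]
      exact ((hmemV _ (z_mem w z e)).mul h2.inv).mul (hmemV _ (hℓ e)).inv
    exact h4.of_pow (Nat.pos_of_ne_zero (ha e))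
  have halg : Algebra.IsAlgebraic (Algebra.adjoin E (s : Set K)) K := by
    refine ⟨fun q => ?_⟩
    have hq : q ∈ IntermediateField.adjoin E (Set.range y ∪ Set.range x) := by
      rw [hgen]
      trivial
    induction hq using IntermediateField.adjoin_induction with
    | mem q hq =>
      rcases hq with ⟨j, rfl⟩ | ⟨e, rfl⟩
      · exact hmemy j
      · exact hmemx e
    | algebraMap c =>
      exact isAlgebraic_algebraMap (algebraMap E (Algebra.adjoin E (s : Set K)) c)
    | add z z' _ _ h h' => exact h.add h'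
    | inv z _ h => exact h.inv
    | mul z z' _ _ h h' => exact h.mul h'
  have h2 := Algebra.IsAlgebraic.trdeg_le_cardinalMk E (s : Set K)
  have h3 : s.card ≤ B.card + ny := by
    refine (Finset.card_union_le _ _).trans (Nat.add_le_add Finset.card_image_le ?_)
    refine Finset.card_image_le.trans ?_
    rw [Finset.card_univ, Fintype.card_fin]
  have h4 : Cardinal.mk (s : Set K) = (s.card : Cardinal) := Cardinal.mk_coe_finset
  rw [h4] at h2
  calc Algebra.trdeg E K + 1 ≤ (s.card : Cardinal) + 1 := by gcongr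
    _ = ((s.card + 1 : ℕ) : Cardinal) := by rw [Nat.cast_add, Nat.cast_one]
    _ ≤ _ := by
      rw [Nat.cast_le]
      omega

end

end Pool.Agent.X326.RK
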